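import Pool.Agent.Y957.MC.Ret

set_option autoImplicit false

/-!
# Return times for multiple recurrence averages at almost every time of a flow

Let `(S_t)` be a measurable measure preserving flow on a probability space `Ω`, `h` in `L^∞(Ω)` and `P` a real
polynomial of positive degree (for instance `P(n) = n`). There is a set of full measure of points `ω`, depending
only on the flow, `h` and `P`, such that for EVERY probability space `(X, μ)` and every uniformly bounded sequence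
of measurable functions `W_n` on `X`, for almost every `a` and `μ`-almost every `x`
`(1/N) ∑_{n ≤ N} W_n(x) (h(S_{a P(n)} ω) - E(h|S)(ω)) → 0`.

With `W_n(x) = f(T^n x) g(T^{-n} x)` these are the averages of the return times problem for double recurrence, for
the map `S_a` in place of `S`: second part. For almost every `a` they are asymptotic to `E(h|S)(ω)` times the
averages without `h`, which converge by Bourgain's theorem. The null set of exceptional `ω` does not depend on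
`(X, μ, T)`, `f`, `g`; the null set of exceptional times does.

Proof: `Pool.Agent.Y957.MC`, see `Pool.Agent.Results.MP_4d8f14_an.GenericTimesOfFlows` for a sketch.
-/

namespace Pool.Agent.Results.MP_352bb5_an.AlmostEveryTime

open MeasureTheory Filter Finset

universe u v

/-- a measurable measure preserving flow -/
structure IsFlow {Ω : Type u} [MeasurableSpace Ω] (μ₀ : Measure Ω) (S : ℝ → Ω → Ω) : Prop where
  meas : Measurable (fun p : ℝ × Ω => S p.1 p.2)
  zero : ∀ x, S 0 x = x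
  add : ∀ s t x, S (s + t) x = S s (S t x)
  mp : ∀ t, MeasurePreserving (S t) μ₀ μ₀

theorem result (Ω : Type u) [MeasurableSpace Ω] (μ₀ : Measure Ω) [IsProbabilityMeasure μ₀] (S : ℝ → Ω → Ω)
    (hS : IsFlow μ₀ S) (h : Ω → ℂ) (hh : AEStronglyMeasurable h μ₀) (hhb : ∃ C : ℝ, ∀ᵐ ω ∂μ₀, ‖h ω‖ ≤ C)
    (P : Polynomial ℝ) (hP : 0 < P.natDegree) :
    ∀ᵐ ω ∂μ₀,
      (∀ (X : Type v) [MeasurableSpace X] (μ : Measure X) [IsProbabilityMeasure μ] (W : ℕ → X → ℂ),
        (∀ n, AEStronglyMeasurable (W n) μ) → (∃ C : ℝ, ∀ n, ∀ᵐ x ∂μ, ‖W n x‖ ≤ C) →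
        ∀ᵐ a : ℝ, ∀ᵐ x ∂μ, Tendsto (fun N : ℕ => (1 / (N : ℂ)) * ∑ n ∈ Icc 1 N, W n x *
          (h (S (a * P.eval (n : ℝ)) ω) - (μ₀[h | ⨅ t : ℝ, MeasurableSpace.invariants (S t)]) ω)) atTop (nhds 0)) ∧
      (∀ (X : Type v) [MeasurableSpace X] (μ : Measure X) [IsProbabilityMeasure μ] (T : X ≃ᵐ X) (f g : X → ℂ),
        MeasurePreserving T μ μ → AEStronglyMeasurable f μ → AEStronglyMeasurable g μ →
        (∃ C : ℝ, ∀ᵐ x ∂μ, ‖f x‖ ≤ C) → (∃ C : ℝ, ∀ᵐ x ∂μ, ‖g x‖ ≤ C) →
        ∀ᵐ a : ℝ, ∀ᵐ x ∂μ, Tendsto (fun N : ℕ =>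
          (1 / (N : ℂ)) * ∑ n ∈ Icc 1 N, f (T^[n] x) * g (T.symm^[n] x) * h (S (a * P.eval (n : ℝ)) ω) -
          (μ₀[h | ⨅ t : ℝ, MeasurableSpace.invariants (S t)]) ω *
            ((1 / (N : ℂ)) * ∑ n ∈ Icc 1 N, f (T^[n] x) * g (T.symm^[n] x))) atTop (nhds 0)) := by
  have hS' : Pool.Agent.Y957.MC.IsFlow μ₀ S := ⟨hS.meas, hS.zero, hS.add, hS.mp⟩
  filter_upwards [Pool.Agent.Y957.MC.flow_systems.{u, v} hS' hh hhb hP] with ω hω
  refine ⟨hω, ?_⟩
  intro X _ μ _ T f g hT hf hg hfb hgb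
  obtain ⟨Cf, hCf⟩ := hfb
  obtain ⟨Cg, hCg⟩ := hgb
  have hT' : MeasurePreserving T.symm μ μ := hT.symm T
  have h1 := hω X μ (fun n x => f (T^[n] x) * g (T.symm^[n] x))
    (fun n => (hf.comp_measurePreserving (hT.iterate n)).mul (hg.comp_measurePreserving (hT'.iterate n)))
    ⟨|Cf| * |Cg|, fun n => by
      filter_upwards [(hT.iterate n).quasiMeasurePreserving.ae hCf, (hT'.iterate n).quasiMeasurePreserving.ae hCg]
        with x h1 h2
      rw [norm_mul]
      exact mul_le_mul (h1.trans (le_abs_self _)) (h2.trans (le_abs_self _)) (norm_nonneg _) (abs_nonneg _)⟩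
  filter_upwards [h1] with a ha
  filter_upwards [ha] with x hx
  refine hx.congr fun N => ?_
  have e : ∀ n, f (T^[n] x) * g (T.symm^[n] x) * (h (S (a * P.eval (n : ℝ)) ω) -
      (μ₀[h | Pool.Agent.Y957.MC.flowInv S]) ω) = f (T^[n] x) * g (T.symm^[n] x) * h (S (a * P.eval (n : ℝ)) ω) -
      (μ₀[h | Pool.Agent.Y957.MC.flowInv S]) ω * (f (T^[n] x) * g (T.symm^[n] x)) := fun n => by ring
  simp only [e]
  rw [sum_sub_distrib, mul_sub, ← mul_sum, mul_left_comm]
  rfl

end Pool.Agent.Results.MP_352bb5_an.AlmostEveryTime
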